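import Pool.Agent.helper36.FF.L

/-!
# Project FF2 (MP_bbe200_nt): sign patterns of the Liouville function of `F[X]` in characteristic 2

`F` a finite field with `2 ^ m` elements, `K` a field of characteristic 2 (for example `AlgebraicClosure F`).
In characteristic 2: `x + x = 0`, `-x = x`, `(x + y) ^ 2 = x ^ 2 + y ^ 2` (`CharTwo.add_self_eq_zero`, `CharTwo.neg_eq`,
`CharTwo.sub_eq_add`, `CharTwo.add_sq`, `CharTwo.sum_sq`), `1 / 0 = 0`, and `2 = 0`, `3 = 1`, `4 = 0` in `K` and `K[X]`.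

RULES: row `X`: file `Pool/Agent/<seat>/FF2/X.lean`, `import Pool.Agent.helper76.FF2.Spec`, namespace `Pool.Agent.FF2`,
theorem line exactly as in the lock note; auxiliary lemmas prefixed `X_`; other rows only as the listed hypotheses (do not
import their files). No straight double quotes, no `native_decide`, no `convert`, no `congr!`.
The lemmas of `Pool/Agent/helper36/FF/*.lean` (namespace `Pool.Agent.helper36.FF`, imported here) may be used: `lam` and its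
lemmas, `aeval_pow_card`, `aroots_irr`, `root_pow_inj`, `root_pow_natDegree`, `card_aroots`, `aeval_monic`, `crt_pair`,
`crt_finset`, `exists_part`, `exists_avoid`, `exists_primes`, `exists_pth_root`, `pth_inj`, `derivative_pth`,
`monic_family`, `finite_factors`, `exists_monic_assoc`, `coprime_of_ne`, `finite_small`, `sq_dvd_assoc`.
-/

set_option autoImplicit false

namespace Pool.Agent.FF2

open Polynomial

/-- The second elementary symmetric function of the values `z x`, `x ∈ R`. -/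
noncomputable def e2 {K : Type*} [Field K] (R : Finset K) (z : K → K) : K :=
  ∑ p ∈ R.powersetCard 2, ∏ x ∈ p, z x

/-- Berlekamp's sum `∑ x y / (x + y) ^ 2` over the two-element subsets of `R`. -/
noncomputable def Bp {K : Type*} [Field K] (R : Finset K) : K :=
  ∑ p ∈ R.powersetCard 2, (∏ x ∈ p, x) / (∑ x ∈ p, x) ^ 2

/-- `∑ x / (x + y)` over `y ∈ R` (in characteristic 2 the term `y = x` is `0`). -/
noncomputable def zr {K : Type*} [Field K] (R : Finset K) (x : K) : K := ∑ y ∈ R, x / (x + y)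

/-- The truncated trace `x + x ^ 2 + x ^ 4 + ... + x ^ (2 ^ (m - 1))`. -/
noncomputable def bt {K : Type*} [Field K] (m : ℕ) (x : K) : K := ∑ i ∈ Finset.range m, x ^ 2 ^ i

/-- The monic polynomial with root set `R`. -/
noncomputable def pol {K : Type*} [Field K] (R : Finset K) : K[X] := ∏ x ∈ R, (X - C x)

open Classical in
/-- The set of roots in the algebraic closure. -/
noncomputable def rs {F : Type*} [Field F] (G : F[X]) : Finset (AlgebraicClosure F) :=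
  (G.aroots (AlgebraicClosure F)).toFinset

/-! ### Block 1: symmetric functions -/

/-- E2A (short-medium). Two-element subsets of `cons a R h`: those of `R` and the `{a, x}`, `x ∈ R` (`Finset.powersetCard_succ_insert`, or
`Finset.powersetCard_cons`). The other parts by `Finset.cons_induction` from the recursion (part 6: `(z+t)`: `e2 (z + t)` of `cons a R`
is `e2 R (z+t) + (z a + t a) (∑ z + ∑ t)`; in part 6 the last sum has the sign `-`, which is `+` in characteristic 2; part 8: `C(n+1,2) = C(n,2) + n`;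
part 9: `(∑ z)^2 = ∑ z^2`). -/
def E2A_stmt (K : Type*) [Field K] [CharP K 2] : Prop :=
  (∀ z : K → K, e2 ∅ z = 0) ∧
  (∀ (R : Finset K) (a : K) (h : a ∉ R) (z : K → K),
    e2 (Finset.cons a R h) z = e2 R z + z a * ∑ x ∈ R, z x) ∧
  (Bp (∅ : Finset K) = 0) ∧
  (∀ (R : Finset K) (a : K) (h : a ∉ R),
    Bp (Finset.cons a R h) = Bp R + ∑ x ∈ R, a * x / (a + x) ^ 2) ∧
  (∀ (R : Finset K) (z t : K → K), (∀ x ∈ R, z x = t x) → e2 R z = e2 R t) ∧
  (∀ (R : Finset K) (z t : K → K), e2 R (fun x => z x + t x) =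
    e2 R z + e2 R t + (∑ x ∈ R, z x) * (∑ x ∈ R, t x) + ∑ x ∈ R, z x * t x) ∧
  (∀ (R : Finset K) (c : K) (z : K → K), e2 R (fun x => c * z x) = c ^ 2 * e2 R z) ∧
  (∀ (R : Finset K) (c : K), e2 R (fun _ => c) = ((R.card.choose 2 : ℕ) : K) * c ^ 2) ∧
  (∀ (R : Finset K) (z : K → K), e2 R (fun x => z x ^ 2) = (e2 R z) ^ 2)

/-- ROT (medium). From E2A. First `∑ x ∈ R, zr R x = C(|R|, 2)` (induction, `x/(x+s) + s/(x+s) = 1` for `x ≠ s`). Then `Finset.cons_induction`: `R' = cons s R`,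
`n = |R|`, `z = zr R`, `y x = x/(x+s)`, `Y = ∑ y`, `Z = ∑ z = C(n,2)`. For `x ∈ R`: `zr R' x = z x + y x`, `zr R' s = ∑ s/(s+x) = n + Y`. By E2A
`e2 R' (zr R') = e2 R z + e2 R y + Z Y + ∑ z y + (n + Y)(Z + Y) = e2 R z + e2 R y + ∑ z y + n Z + n Y + Y^2`.
CLAIM `e2 R y + ∑ z y = (n + 1)(n + Y)`. Proof by a second induction on `R` (`s` fixed, `s ∉ R`), `R' = cons a R`, with the identity (for `x ≠ a`, `x, a ≠ s`)
`y_a y_x + (x/(x+a)) y_x + (a/(a+x)) y_a = s/(x+s) + s/(a+s)` (`field_simp`, characteristic 2), `s/(x+s) = 1 + y_x`: the left side grows by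
`∑_x (y_a y_x + (x/(x+a)) y_x + (a/(a+x)) y_a) = ∑_x ((1 + y_x) + (1 + y_a)) = Y + n y_a` (`2 = 0`; here `n, Y` belong to `R`) and the right side from `(n+1)(n+Y)` to `(n+2)(n+1+Y+y_a)`, and in
characteristic 2 `(n+2)(n+1+Y+y_a) + (n+1)(n+Y) = n(n+1) + n Y + n y_a + n(n+1) + (n+1) Y = Y + n y_a`. So `e2 R' (zr R') = e2 R z + (n+1)(n+Y) + nZ + nY + Y^2 = e2 R z + n(n+1) + Y + Y^2 + nZ`, and `n(n+1) = 0` in `K`.
On the other side `Bp R' = Bp R + ∑ s x/(s+x)^2 = Bp R + ∑ y(1+y) = Bp R + Y + Y^2` and `C(n+1,4) = C(n,4) + C(n,3)`, `C(n,3) ≡ n C(n,2)` modulo 2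
(`3 C(n,3) = (n-2) C(n,2)`: `Nat.succ_mul_choose_eq`, `Nat.choose_succ_right_eq`). -/
def ROT_stmt (K : Type*) [Field K] [CharP K 2] : Prop :=
  ∀ R : Finset K, e2 R (zr R) = Bp R + ((R.card.choose 4 : ℕ) : K)

/-- BAD (short). From E2A. Induction on `R` (`cons`): `Bp` of `(cons a R) ∪ S = cons a (R ∪ S)` grows by `∑ over R ∪ S of a x/(a+x)^2`, and for `x ∈ S`: `a x/(a+x)^2 = v^2 + v` with `v = a/(a+x)`
(`x/(a+x) = 1 + v`, `a ≠ x`). -/
def BAD_stmt (K : Type*) [Field K] [CharP K 2] : Prop :=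
  ∀ (R S : Finset K) (h : Disjoint R S), Bp (R.disjUnion S h) =
    Bp R + Bp S + (∑ x ∈ R, ∑ y ∈ S, x / (x + y)) ^ 2 + ∑ x ∈ R, ∑ y ∈ S, x / (x + y)

/-- BT0 (short). `add_pow_char_pow`; part 3 telescopes; part 4: `(bt m x)^2 = bt m x + x^(2^m) + x = bt m x`, so `bt m x` is a root of `t^2 = t`; part 5: `bt m (x^2) = (bt m x)^2`. -/
def BT0_stmt (K : Type*) [Field K] [CharP K 2] : Prop :=
  (∀ (m : ℕ) (x y : K), bt m (x + y) = bt m x + bt m y) ∧
  (∀ m : ℕ, bt m (0 : K) = 0) ∧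
  (∀ (m : ℕ) (y : K), bt m (y ^ 2 + y) = y ^ 2 ^ m + y) ∧
  (∀ (m : ℕ) (x : K), x ^ 2 ^ m = x → bt m x = 0 ∨ bt m x = 1) ∧
  (∀ (m : ℕ) (x : K), x ^ 2 ^ m = x → bt m (x ^ 2) = bt m x) ∧
  (∀ (m : ℕ) (s : Finset K) (f : K → K), bt m (∑ x ∈ s, f x) = ∑ x ∈ s, bt m (f x))

/-! ### Block 2: root sets and the Berlekamp formula -/

/-- RTS (short-medium). `F` perfect, `G` squarefree: separable, so the roots are simple (`Polynomial.nodup_roots`, `Separable.map`, `PerfectField.separable_iff_squarefree`),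
`card_aroots` of helper36; `G.map = ∏ (X - x)`: `IsAlgClosed.splits`, `Splits.eq_prod_roots_of_monic` or similar. Part 3: `x ↦ x^q` is injective
(`pow_card_pow_injective 1`), maps `rs G` into itself (`aeval_pow_card`), so it is a bijection of `rs G` (`Finset.sum_bij` / `Finset.map_eq_of_subset` / `Finset.surj_on_of_inj_on_of_card_le`).
Part 4 from part 3: `(∑ f)^q = ∑ f^q` (`sum_pow_char_pow`, `q` a power of the characteristic 2; or `frobenius` of `FiniteField.card`). -/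
def RTS_stmt (F : Type*) [Field F] [Fintype F] [CharP F 2] : Prop :=
  (∀ G : F[X], G.Monic → Squarefree G → (rs G).card = G.natDegree ∧
    G.map (algebraMap F (AlgebraicClosure F)) = pol (rs G)) ∧
  (∀ G : F[X], G ≠ 0 → ∀ x : AlgebraicClosure F, x ∈ rs G ↔ aeval x G = 0) ∧
  (∀ (G : F[X]) (f : AlgebraicClosure F → AlgebraicClosure F),
    ∑ x ∈ rs G, f (x ^ Fintype.card F) = ∑ x ∈ rs G, f x) ∧
  (∀ (G : F[X]) (f : AlgebraicClosure F → AlgebraicClosure F),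
    (∀ x ∈ rs G, f (x ^ Fintype.card F) = f x ^ Fintype.card F) →
      (∑ x ∈ rs G, f x) ^ Fintype.card F = ∑ x ∈ rs G, f x) ∧
  (∀ G H : F[X], G ≠ 0 → H ≠ 0 → IsCoprime G H →
    ∃ h : Disjoint (rs G) (rs H), rs (G * H) = (rs G).disjUnion (rs H) h)

/-- BIR (medium). From E2A, BT0. `d = P.natDegree`, `α` a root, `a i = α^(q^i)`, `i < d` distinct (`root_pow_inj`), `a d = a 0` (`root_pow_natDegree`), `rs P = image a (range d)`
(`aroots_irr`). `Bp` over the image of `range k`, `k ≤ d`, is `∑ over i < j < k of a i a j/(a i + a j)^2` (induction on `k`, E2A part 4), so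
`Bp (rs P) = T^2 + T`, `T = ∑ (j ∈ range d) ∑ (i ∈ range j) a i/(a i + a j)`. `T^q = ∑ (j ∈ range d) ∑ (i ∈ range j) a (i+1)/(a (i+1) + a (j+1))`; write `T^q = U + V` with `U` the part `j + 1 < d`
(`= ∑ (1 ≤ i < j < d)`) and `V = ∑ (i < d-1) a (i+1)/(a (i+1) + a 0)`; `T = U + ∑ (1 ≤ j < d) a 0/(a 0 + a j)`. Each `a j/(a j + a 0) + a 0/(a 0 + a j) = 1`. So `T^q + T = d - 1 = d + 1` in `K`, and
`bt m (T^2 + T) = T^(2^m) + T` (BT0). -/
def BIR_stmt (F : Type*) [Field F] [Fintype F] [CharP F 2] : Prop :=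
  ∀ m : ℕ, Fintype.card F = 2 ^ m → ∀ P : F[X], P.Monic → Irreducible P →
    bt m (Bp (rs P)) = (P.natDegree : AlgebraicClosure F) + 1

/-- SGN (short-medium). From BAD, BT0, RTS, BIR. Strong induction on `natDegree` (see `pellet` in `Pool/Agent/helper36/FF/C.lean`): `G = 1`: `rs 1 = ∅`. Else `G = P H`, `P` monic irreducible, `H` monic
squarefree, coprime. BAD with `u = ∑ ∑ x/(x+y)` over `rs P`, `rs H`; `u^q = u` (Frobenius permutes both sets: RTS part 3 twice, after `(∑ f)^q = ∑ f^q`), so `bt m (u^2 + u) = u^(2^m) + u = 0`.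
`UniqueFactorizationMonoid.factors` of a product: `factors_mul` gives `Multiset.Rel Associated`, the cardinalities agree (see `lam_mul`, `lam_irr`). -/
def SGN_stmt (F : Type*) [Field F] [Fintype F] [CharP F 2] : Prop :=
  ∀ m : ℕ, Fintype.card F = 2 ^ m → ∀ G : F[X], G.Monic → Squarefree G →
    bt m (Bp (rs G)) = (G.natDegree : AlgebraicClosure F) +
      ((Multiset.card (UniqueFactorizationMonoid.factors G) : ℕ) : AlgebraicClosure F)

/-! ### Block 3: polynomials over a field of characteristic 2 -/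

/-- REC (medium). From E2A. `G i = pol (R i)`. Let `A = K[t]`, `f = D + t N ∈ A[X]` (monic in `X`, `natDegree f = natDegree D` as `deg N < deg D`). `∏ (x ∈ R) f(x) = Res(G, f)` up to sign (`resultant_prod_left`,
`resultant_X_sub_C_left`, ... or directly), and `Res(f, G₁) ≡ Res(f, G₂)` modulo `t^3`: over `A/(t^3)` one has `D = f - t N`, `D^3 = (f - tN)^3 ≡ f (...) - t^3 N^3`, so `f` divides `G₁ - G₂`
(`resultant_add_mul_right`, `resultant_comm`). Another way: induction is not possible, but norms are: `∏ (x ∈ R) f(x)` is the norm of `G` in the free `A/(t^3)`-algebra `A/(t^3)[X]/(f)`, see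
`AdjoinRoot`, `Algebra.norm`, `resultant_eq_norm`-like lemmas. So `∏ over R₁ of (D x + t N x) ≡ ∏ over R₂` modulo `t^3`; the coefficients of `1, t, t^2` of `∏ (x ∈ R) (D x + t N x)` are `π`, `π ∑ N/D`, `π e2 (N/D)`,
`π = ∏ D x ≠ 0` (`cons_induction`). -/
def REC_stmt (K : Type*) [Field K] [CharP K 2] : Prop :=
  ∀ (R₁ R₂ : Finset K) (D N : K[X]), D.Monic → N.degree < D.degree → R₁.card = R₂.card →
    D ^ 3 ∣ pol R₁ - pol R₂ → (∀ x ∈ R₁, D.eval x ≠ 0) → (∀ x ∈ R₂, D.eval x ≠ 0) →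
    (∑ x ∈ R₁, N.eval x / D.eval x = ∑ x ∈ R₂, N.eval x / D.eval x) ∧
    e2 R₁ (fun x => N.eval x / D.eval x) = e2 R₂ (fun x => N.eval x / D.eval x)

/-- PWS (short-medium). From E2A. `cons_induction`: for `Q = (X - C a) G`: `hasseDeriv k Q = (X - C a) * hasseDeriv k G + hasseDeriv (k-1) G` (`Polynomial.hasseDeriv_mul`, or coefficients; `k = 1, 2, 3`;
`hasseDeriv_one`, `hasseDeriv_zero`), so with `v = 1/(a + b)`, `g k` for `G`, `g' k` for `Q`: `g' k = g k + v g (k-1)`, `g 0 = 1`. The sums: `∑` grows by `v`, `e2` by `v ∑`, the cubes by `v^3`; `ring_nf` and `2 = 0`. -/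
def PWS_stmt (K : Type*) [Field K] [CharP K 2] : Prop :=
  ∀ (R : Finset K) (b : K), b ∉ R → (pol R).eval b ≠ 0 ∧
    ∑ x ∈ R, 1 / (x + b) = (derivative (pol R)).eval b / (pol R).eval b ∧
    e2 R (fun x => 1 / (x + b)) = (hasseDeriv 2 (pol R)).eval b / (pol R).eval b ∧
    ∑ x ∈ R, (1 / (x + b)) ^ 3 =
      ((derivative (pol R)).eval b / (pol R).eval b) ^ 3 +
      ((derivative (pol R)).eval b / (pol R).eval b) *
        ((hasseDeriv 2 (pol R)).eval b / (pol R).eval b) +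
      (hasseDeriv 3 (pol R)).eval b / (pol R).eval b

/-- LDV (short). `hasseDeriv k (w^4) = 0` for `k = 1, 2, 3` (characteristic 2: `w^4 = (w^2)^2`; `w^2 = expand ..`; or: `hasseDeriv_mul` for `f * f` with `f = w^2`: `hasseDeriv 1 (f^2) = 2 f f'`,
`hasseDeriv 2 (f^2) = 2 f f'' + f'^2`, `f' = 0`; `hasseDeriv 3 (f^2) = 2(..)`). Apply `hasseDeriv 1, 2, 3` to the equation (Leibniz, `hasseDeriv_mul`) and evaluate at `b`: with `S k`, `G k` the values of the Hasse derivatives: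
`0 = S1 G0 + S0 G1`; `A2 = S2 G0 + S1 G1 + S0 G2`; `A3 = S3 G0 + S2 G1 + S1 G2 + S0 G3`; `w(b)^4 = S0 G0`. Divide by `S0 G0`. -/
def LDV_stmt (K : Type*) [Field K] [CharP K 2] : Prop :=
  ∀ (A w s G : K[X]) (b : K), A + w ^ 4 = s * G → A.eval b = 0 → (derivative A).eval b = 0 →
    w.eval b ≠ 0 → G.eval b ≠ 0 ∧ s.eval b ≠ 0 ∧
    (derivative G).eval b / G.eval b = (derivative s).eval b / s.eval b ∧
    (hasseDeriv 2 G).eval b / G.eval b = (hasseDeriv 2 A).eval b * (1 / w.eval b ^ 4) +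
      (hasseDeriv 2 s).eval b / s.eval b + ((derivative s).eval b / s.eval b) ^ 2 ∧
    ((derivative G).eval b / G.eval b) * ((hasseDeriv 2 G).eval b / G.eval b) +
        (hasseDeriv 3 G).eval b / G.eval b =
      (hasseDeriv 3 A).eval b * (1 / w.eval b ^ 4) + (hasseDeriv 3 s).eval b / s.eval b +
        ((derivative s).eval b / s.eval b) * ((hasseDeriv 2 s).eval b / s.eval b)

/-- E2B (short-medium). From E2A, PWS, LDV. `κ = s2/s + (s1/s)^2`, `κ' = s3/s + (s1/s)(s2/s)` at `b`. `b ∉ R` as `(pol R)(b) ≠ 0`. `e2 (α/(x+b)^2 + γ/(x+b)) = α^2 e2(y^2) + γ^2 e2(y) + α γ (∑ y^2)(∑ y) + α γ ∑ y^3`,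
`y = 1/(x+b)`; `e2(y^2) = e2(y)^2`, `∑ y^2 = (∑ y)^2`, so with `g k` as in PWS it is `α^2 g2^2 + γ^2 g2 + α γ (g1^3 + g1^3 + g1 g2 + g3)`; LDV. -/
def E2B_stmt (K : Type*) [Field K] [CharP K 2] : Prop :=
  ∀ (A s : K[X]) (b : K), A.eval b = 0 → (derivative A).eval b = 0 →
    ∃ κ κ' : K, ∀ (w : K[X]) (R : Finset K), A + w ^ 4 = s * pol R → w.eval b ≠ 0 →
      ∀ α γ : K, e2 R (fun x => α / (x + b) ^ 2 + γ / (x + b)) =
        α ^ 2 * ((hasseDeriv 2 A).eval b * (1 / w.eval b ^ 4) + κ) ^ 2 +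
        γ ^ 2 * ((hasseDeriv 2 A).eval b * (1 / w.eval b ^ 4) + κ) +
        α * γ * ((hasseDeriv 3 A).eval b * (1 / w.eval b ^ 4) + κ')

/-- ZRT (short-medium). From PWS. `R = cons x R'` (`R' = R.erase x`), `pol R = (X - C x) Q`, `Q = pol R'`. At `x`: `(pol R)' = Q(x) ≠ 0`, `hasseDeriv 2 (pol R) = Q'(x)`, and `Q'(x)/Q(x) = ∑ (y ∈ R') 1/(y + x)` (PWS part 2 for
`R'`, `b = x`), so `zr R x = x Q'(x)/Q(x)` (the term `y = x` is `x/0 = 0`). Hasse derivatives of the equation at `x`: `A' = s' 0 + s Q(x)`; `A2 = s' Q(x) + s Q'(x)` (`pol R` vanishes at `x`). -/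
def ZRT_stmt (K : Type*) [Field K] [CharP K 2] : Prop :=
  ∀ (A H s : K[X]) (R : Finset K), A + H = s * pol R → derivative H = 0 → hasseDeriv 2 H = 0 →
    ∀ x ∈ R, s.eval x ≠ 0 →
      (derivative (pol R)).eval x ≠ 0 ∧
      (derivative A).eval x = s.eval x * (derivative (pol R)).eval x ∧
      zr R x = x * ((hasseDeriv 2 A).eval x / (derivative A).eval x +
        (derivative s).eval x / s.eval x)

/-- EUL (medium). Any characteristic. Let `G = pol R`, `n = |R|`, `σ = natDegree S`. `G`, `S` are coprime (no common root), so there is `h` with `natDegree h < n` (or `h = 0`, `n = 0`) and `S h = g + G k` for some `k`; for `x ∈ R`: `h(x) = g(x)/S(x)`.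
Lagrange: `∑ (x ∈ R) h(x)/G'(x) =` the coefficient of `X^(n-1)` of `h` if `deg h < n` (`Lagrange.sum_nodalWeight_mul_..`, `Lagrange.interpolate`, or search Mathlib for `coeff` of `interpolate`; `eval_nodal_derivative_eval_node_eq`).
Comparing the coefficients of `X^(n-1+σ)` in `S h = g + G k` (`natDegree k < σ` as `deg (G k) < n + σ`): `h_(n-1) = g_(n-1+σ) + k_(σ-1)` (`σ ≥ 1`; for `σ = 0`, `S = 1`, `k = 0`, `h = g`). `k` is determined by `deg k < σ` and `S ∣ g + G k`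
(`G` is invertible modulo `S`), and this only depends on `G` modulo `S`; so `k`, and the sum, are the same for `R₁`, `R₂`. -/
def EUL_stmt (K : Type*) [Field K] : Prop :=
  ∀ (R₁ R₂ : Finset K) (S g : K[X]), S.Monic → R₁.card = R₂.card → S ∣ pol R₁ - pol R₂ →
    (∀ x ∈ R₁, S.eval x ≠ 0) → (∀ x ∈ R₂, S.eval x ≠ 0) →
    g.natDegree < S.natDegree + R₁.card →
    ∑ x ∈ R₁, g.eval x / (S.eval x * (derivative (pol R₁)).eval x) =
      ∑ x ∈ R₂, g.eval x / (S.eval x * (derivative (pol R₂)).eval x)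

/-- PAR (short-medium). `Q b = pol (B.erase b)`; `L = ∑ (b ∈ B) (C a_b + C c_b (X - C b)) (Q b)^2`, `a_b = N(b)/P'(b)^2`, `c_b = N'(b)/P'(b)^2`, `P = pol B`, `P'(b) = (Q b)(b) ≠ 0`. `natDegree L < 2|B|`. `L(b) = N(b)`, `L'(b) = N'(b)` (the terms of `c ≠ b` are divisible by
`(X - b)^2`; `(Q^2)' = 0` in characteristic 2), so `(X - C b)^2 ∣ N - L` for all `b ∈ B`, hence `P^2 ∣ N - L` (pairwise coprime) and `N = L` by degrees. Divide by `P(x)^2 = (x - b)^2 (Q b)(x)^2`. -/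
def PAR_stmt (K : Type*) [Field K] [CharP K 2] : Prop :=
  ∀ (B : Finset K) (N : K[X]), N.degree < ((pol B) ^ 2).degree → ∀ x : K, x ∉ B →
    N.eval x / ((pol B).eval x) ^ 2 =
      ∑ b ∈ B, (N.eval b / (derivative (pol B)).eval b ^ 2 / (x + b) ^ 2 +
        (derivative N).eval b / (derivative (pol B)).eval b ^ 2 / (x + b))

/-- DSM (short). From E2A. Induction on `B` (`cons`), with `e2 (f + g) = e2 f + e2 g + (∑ f)(∑ g) + ∑ f g`. -/
def DSM_stmt (K : Type*) [Field K] [CharP K 2] : Prop :=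
  ∀ (R₁ R₂ B : Finset K) (f : K → K → K),
    (∀ b ∈ B, ∑ x ∈ R₁, f b x = ∑ x ∈ R₂, f b x) →
    (∀ b ∈ B, ∀ c ∈ B, b ≠ c → ∑ x ∈ R₁, f b x * f c x = ∑ x ∈ R₂, f b x * f c x) →
    e2 R₁ (fun x => ∑ b ∈ B, f b x) + e2 R₂ (fun x => ∑ b ∈ B, f b x) =
      ∑ b ∈ B, (e2 R₁ (f b) + e2 R₂ (f b))

/-- DEC (short-medium). `A' s = P^2 (E^2 s)`. `M = X (A2 s + s' A') - δ A' s` has degree `< deg (A' s)`: `deg (X A2) < deg A'`, and `X s' - δ s` has degree `< deg s` (leading terms; `s' = 0`, `δ = 0` if `s = 1`). `P^2` and `D = E^2 s` are coprime: `u D + v P^2 = 1`; `N₁ = (M u) %ₘ P^2`,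
then `P^2 ∣ M - N₁ D`, `N₂` the quotient; degrees. -/
def DEC_stmt (K : Type*) [Field K] [CharP K 2] : Prop :=
  ∀ A P E s : K[X], P.Monic → E.Monic → s.Monic → derivative A = (P * E) ^ 2 →
    IsCoprime P E → IsCoprime P s → (hasseDeriv 2 A).natDegree + 1 < (derivative A).natDegree →
    ∃ N₁ N₂ : K[X], N₁.degree < (P ^ 2).degree ∧ N₂.degree < (E ^ 2 * s).degree ∧
      X * (hasseDeriv 2 A * s + derivative s * derivative A) =
        C (s.natDegree : K) * (derivative A * s) + N₁ * (E ^ 2 * s) + N₂ * P ^ 2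

/-! ### Block 4: the comparison over a field of characteristic 2 -/

/-- The situation: `A' = (P E)^2`, `A = P^2 + P^3` modulo `P^4`, `A + w i ^ 4 = s * pol (R i)`, the two root polynomials agree modulo `(E^2 s)^3`. -/
structure Sit {K : Type*} [Field K] (A E s w₁ w₂ : K[X]) (B R₁ R₂ : Finset K) : Prop where
  hE : E.Monic
  hs : s.Monic
  hA : derivative A = (pol B * E) ^ 2
  hBE : ∀ b ∈ B, E.eval b ≠ 0
  hBs : ∀ b ∈ B, s.eval b ≠ 0
  h4 : pol B ^ 4 ∣ A + pol B ^ 2 + pol B ^ 3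
  hdeg : (hasseDeriv 2 A).natDegree + 1 < (derivative A).natDegree
  h1 : A + w₁ ^ 4 = s * pol R₁
  h2 : A + w₂ ^ 4 = s * pol R₂
  hcard : R₁.card = R₂.card
  hbig : A.natDegree < s.natDegree + R₁.card
  hw1 : ∀ b ∈ B, w₁.eval b ≠ 0
  hw2 : ∀ b ∈ B, w₂.eval b ≠ 0
  hR1 : ∀ x ∈ R₁, x ∉ B ∧ E.eval x ≠ 0 ∧ s.eval x ≠ 0
  hR2 : ∀ x ∈ R₂, x ∉ B ∧ E.eval x ≠ 0 ∧ s.eval x ≠ 0
  hmod : (E ^ 2 * s) ^ 3 ∣ pol R₁ - pol R₂

/-- WWW (short-medium). From ZRT, EUL. `P^2 (E^2 s) = A' s` and on `R i`: `A'(x) s(x) = s(x)^2 (pol (R i))'(x)` (ZRT, `H = w^4`: `derivative`, `hasseDeriv 2` of `w^4` are `0`). EUL with `S = s^2` (it divides `(E^2 s)^3`); `natDegree g < natDegree (A' s) ≤ natDegree A + natDegree s <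
2 natDegree s + |R|`. -/
def WWW_stmt (K : Type*) [Field K] [CharP K 2] : Prop :=
  ∀ (A E s w₁ w₂ : K[X]) (B R₁ R₂ : Finset K), Sit A E s w₁ w₂ B R₁ R₂ →
    ∀ g : K[X], g.degree < (pol B ^ 2 * (E ^ 2 * s)).degree →
      ∑ x ∈ R₁, g.eval x / (pol B ^ 2 * (E ^ 2 * s)).eval x =
        ∑ x ∈ R₂, g.eval x / (pol B ^ 2 * (E ^ 2 * s)).eval x

/-- PFD (medium). From WWW. Write each summand as `g(x)/(P^2 D)(x)`, `D = E^2 s`, with `deg g < deg (P^2 D)`, for `x ∈ R₁ ∪ R₂` (`x ∉ B`, so `x + b ≠ 0`): part 1: `g = (C α + C γ (X - C b)) Q^2 D`, `P = (X - C b) Q` (`Q = pol (B.erase b)`). Part 2: `Q = pol ((B.erase b).erase c)`,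
`g = (C α + C γ (X - C b)) (C α' + C γ' (X - C c)) Q^2 D`. Part 3: `g = N D`. Part 4: `g = N'' P^2`; part 5: `g = N N''`. (`X - C b` evaluates to `x - b = x + b`.) -/
def PFD_stmt (K : Type*) [Field K] [CharP K 2] : Prop :=
  ∀ (A E s w₁ w₂ : K[X]) (B R₁ R₂ : Finset K), Sit A E s w₁ w₂ B R₁ R₂ →
    (∀ b ∈ B, ∀ α γ : K, ∑ x ∈ R₁, (α / (x + b) ^ 2 + γ / (x + b)) =
      ∑ x ∈ R₂, (α / (x + b) ^ 2 + γ / (x + b))) ∧
    (∀ b ∈ B, ∀ c ∈ B, b ≠ c → ∀ α γ α' γ' : K,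
      ∑ x ∈ R₁, (α / (x + b) ^ 2 + γ / (x + b)) * (α' / (x + c) ^ 2 + γ' / (x + c)) =
      ∑ x ∈ R₂, (α / (x + b) ^ 2 + γ / (x + b)) * (α' / (x + c) ^ 2 + γ' / (x + c))) ∧
    (∀ N : K[X], N.degree < (pol B ^ 2).degree →
      ∑ x ∈ R₁, N.eval x / (pol B).eval x ^ 2 = ∑ x ∈ R₂, N.eval x / (pol B).eval x ^ 2) ∧
    (∀ N'' : K[X], N''.degree < (E ^ 2 * s).degree →
      ∑ x ∈ R₁, N''.eval x / (E ^ 2 * s).eval x = ∑ x ∈ R₂, N''.eval x / (E ^ 2 * s).eval x) ∧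
    (∀ N N'' : K[X], N.degree < (pol B ^ 2).degree → N''.degree < (E ^ 2 * s).degree →
      ∑ x ∈ R₁, (N.eval x / (pol B).eval x ^ 2) * (N''.eval x / (E ^ 2 * s).eval x) =
      ∑ x ∈ R₂, (N.eval x / (pol B).eval x ^ 2) * (N''.eval x / (E ^ 2 * s).eval x))

/-- LOC (medium). From E2A, REC, E2B, PAR, DSM, PFD. `f₁ x = N₁/P^2 = ∑ (b ∈ B) f b x` on `R₁ ∪ R₂` (PAR), `f b x = α/(x+b)^2 + γ/(x+b)`, `f₂ = N₂/D`, `D = E^2 s`. E2A part 6 twice: `e2 (δ + f₁ + f₂)`; adding the values for `R₁`, `R₂` all products of sums and all `∑` of products cancel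
(`∑ δ = n δ`; `∑ δ f = δ ∑ f`; PFD parts 3, 4, 5), and `e2 R₁ δ = e2 R₂ δ`, `e2 R₁ f₂ = e2 R₂ f₂` (REC). So the left side is `e2 R₁ f₁ + e2 R₂ f₁ = ∑ (b ∈ B) (e2 R₁ (f b) + e2 R₂ (f b))` (DSM, PFD parts 1, 2). E2B (`A(b) = 0`, `A'(b) = 0` for `b ∈ B`: `P ∣ A`, `P^2 ∣ A'`):
with `t i = 1/w i (b)^4` the `b`-term is `α^2 (S t₁ + κ)^2 + ... `, the sum over `i` is `α^2 (S τ)^2 + γ^2 (S τ) + α γ (u τ)` as `τ = t₁ + t₂`. -/
def LOC_stmt (K : Type*) [Field K] [CharP K 2] : Prop :=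
  ∀ (A E s w₁ w₂ : K[X]) (B R₁ R₂ : Finset K), Sit A E s w₁ w₂ B R₁ R₂ →
    ∀ (δ : K) (N₁ N₂ : K[X]), N₁.degree < (pol B ^ 2).degree → N₂.degree < (E ^ 2 * s).degree →
      e2 R₁ (fun x => δ + N₁.eval x / (pol B).eval x ^ 2 + N₂.eval x / (E ^ 2 * s).eval x) +
        e2 R₂ (fun x => δ + N₁.eval x / (pol B).eval x ^ 2 + N₂.eval x / (E ^ 2 * s).eval x) =
      ∑ b ∈ B,
        ((N₁.eval b / (derivative (pol B)).eval b ^ 2) ^ 2 *
            ((hasseDeriv 2 A).eval b * (1 / w₁.eval b ^ 4 + 1 / w₂.eval b ^ 4)) ^ 2 +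
          ((derivative N₁).eval b / (derivative (pol B)).eval b ^ 2) ^ 2 *
            ((hasseDeriv 2 A).eval b * (1 / w₁.eval b ^ 4 + 1 / w₂.eval b ^ 4)) +
          (N₁.eval b / (derivative (pol B)).eval b ^ 2) *
            ((derivative N₁).eval b / (derivative (pol B)).eval b ^ 2) *
            ((hasseDeriv 3 A).eval b * (1 / w₁.eval b ^ 4 + 1 / w₂.eval b ^ 4)))

/-- NUM (short-medium). `P = pol B`, `p = P'(b) ≠ 0` (simple roots), `A = P^2 + P^3 + P^4 Z` (characteristic 2), `P(b) = 0`. `A2(b) = p^2`, `A3(b) = p^3`: `hasseDeriv 1, 2, 3` of `P^2` are `0, P'^2, 0`, of `P^3 = P^2 P` at `b`: `0, 0, p^3`; of `P^4 Z` at `b`: `0` (`hasseDeriv_mul`). `A' = P^2 P' + P^4 Z'`, so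
`E^2 = P' + P^2 Z'`, `E(b)^2 = p`. The equation at `b` (`A'(b) = 0`): `b A2(b) s(b) = N₁(b) E(b)^2 s(b)`, so `N₁(b) = b p`. Its derivative at `b` (`A'' = 0`, `(E^2)' = 0`, `(P^2)' = 0`, `(A2)' = 3 A3 = A3`): `A2 s + b A3 s + b A2 s' = N₁' E^2 s + N₁ E^2 s'`, so
`N₁'(b) p = p^2 + b p^3`. -/
def NUM_stmt (K : Type*) [Field K] [CharP K 2] : Prop :=
  ∀ (A E s N₁ N₂ : K[X]) (B : Finset K) (δ : K), derivative A = (pol B * E) ^ 2 →
    pol B ^ 4 ∣ A + pol B ^ 2 + pol B ^ 3 → (∀ b ∈ B, s.eval b ≠ 0) →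
    X * (hasseDeriv 2 A * s + derivative s * derivative A) =
      C δ * (derivative A * s) + N₁ * (E ^ 2 * s) + N₂ * pol B ^ 2 →
    ∀ b ∈ B, (derivative (pol B)).eval b ≠ 0 ∧
      (hasseDeriv 2 A).eval b = (derivative (pol B)).eval b ^ 2 ∧
      (hasseDeriv 3 A).eval b = (derivative (pol B)).eval b ^ 3 ∧
      N₁.eval b = b * (derivative (pol B)).eval b ∧
      (derivative N₁).eval b = (derivative (pol B)).eval b + b * (derivative (pol B)).eval b ^ 2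

/-- COR (short-medium). From E2A, ROT, ZRT, DEC, LOC, NUM. ROT for `R₁`, `R₂` (the binomials cancel), `zr (R i) x = δ + N₁/P^2 + N₂/(E^2 s)` on `R i` (ZRT with `H = w i ^ 4`, DEC divided by `A'(x) s(x) = P^2 E^2 s ≠ 0`), E2A part 5, LOC, NUM. The `b`-term:
`(b/p)^2 (p^2 τ)^2 + (1/p + b)^2 p^2 τ + (b/p)(1/p + b) p^3 τ = (b p τ)^2 + b p τ + τ` (characteristic 2). `∑ (..)^2 = (∑ ..)^2`. -/
def COR_stmt (K : Type*) [Field K] [CharP K 2] : Prop :=
  ∀ (A E s w₁ w₂ : K[X]) (B R₁ R₂ : Finset K), Sit A E s w₁ w₂ B R₁ R₂ →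
    Bp R₁ + Bp R₂ =
      (∑ b ∈ B, b * (derivative (pol B)).eval b * (1 / w₁.eval b ^ 4 + 1 / w₂.eval b ^ 4)) ^ 2 +
      ∑ b ∈ B, b * (derivative (pol B)).eval b * (1 / w₁.eval b ^ 4 + 1 / w₂.eval b ^ 4) +
      ∑ b ∈ B, (1 / w₁.eval b ^ 4 + 1 / w₂.eval b ^ 4)

/-! ### Block 5: finite fields -/

/-- CMP (medium). From BT0, RTS, SGN, COR. `K = AlgebraicClosure F`, `B = rs P`, `R i = rs (G i)`, all polynomials mapped to `K[X]` (`hasseDeriv` commutes with `map`: coefficients). `G i` squarefree: `s G' + s' G = A' = (P E)^2` (derivative of `A + w^4 = s G`), so an irreducible `π` with `π^2 ∣ G` divides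
`G` and `P E`; `π ∤ E` (coprime), and `P ∤ G` as `P ∣ A`, `P ∤ w`. `Sit` from RTS (parts 1, 2; `b ∈ rs P` a root of `E` or `s` or `w i` would give `P ∣` it: `minpoly`, or coprimality). COR, `bt m` of both sides: `v = ∑ b P'(b) τ_b` satisfies `v^q = v` (RTS part 4, `aeval_pow_card`), so `bt m (v^2 + v) = 0` (BT0); SGN
for `G₁`, `G₂` (the same degree, `2 = 0`). -/
def CMP_stmt (F : Type*) [Field F] [Fintype F] [CharP F 2] : Prop :=
  ∀ m : ℕ, Fintype.card F = 2 ^ m → ∀ A P E s w₁ w₂ G₁ G₂ : F[X],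
    P.Monic → Irreducible P → E.Monic → s.Monic → derivative A = (P * E) ^ 2 →
    IsCoprime P E → IsCoprime P s → P ^ 4 ∣ A + P ^ 2 + P ^ 3 →
    (hasseDeriv 2 A).natDegree + 1 < (derivative A).natDegree →
    A + w₁ ^ 4 = s * G₁ → A + w₂ ^ 4 = s * G₂ → G₁.Monic → G₂.Monic →
    G₁.natDegree = G₂.natDegree → A.natDegree < s.natDegree + G₁.natDegree →
    ¬ P ∣ w₁ → ¬ P ∣ w₂ → IsCoprime G₁ E → IsCoprime G₁ s → IsCoprime G₂ E → IsCoprime G₂ s →
    (E ^ 2 * s) ^ 3 ∣ G₁ - G₂ →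
    ((Multiset.card (UniqueFactorizationMonoid.factors G₁) : ℕ) : AlgebraicClosure F) +
      ((Multiset.card (UniqueFactorizationMonoid.factors G₂) : ℕ) : AlgebraicClosure F) =
    bt m (∑ b ∈ rs P, (1 / (aeval b w₁) ^ 4 + 1 / (aeval b w₂) ^ 4))

/-- CSH (medium; as `compare_shift` in `Pool/Agent/helper36/FF/H.lean`). From BT0, RTS, CMP. `A + w^4 = A + wb^4 + (w + wb)^4 = s (B + s Et u)`: `(w + wb)^4` is divisible by `Et^(8N+8)`, hence by `s^4 Et^6`; `G = B + s Et u` (even `B + s^3 Et^6 u`) is coprime to `Et`, so to `E` and `s`, monic, `natDegree = 4 d - natDegree s`;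
`(E^2 s)^3 ∣ G₁ - G₂` (both are `B + s^3 Et^6 u i`, `E ∣ Et`, `s (G₁ - G₂) = (w₁ + wb)^4 + (w₂ + wb)^4`). CMP. `lam (s G) = lam s * lam G`, `lam G = (-1)^(card factors)`; the sum of the two cardinalities in `K` is `0` or `1` according to the two values of `bt m (∑ ..)`, which are `0` or `1` (BT0 part 4, RTS part 4 with
`aeval_pow_card`), and `bt` is additive. `(n : K) = 0` iff `n` even (`CharP.cast_eq_zero_iff`). -/
def CSH_stmt (F : Type*) [Field F] [Fintype F] [CharP F 2] : Prop :=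
  ∀ m : ℕ, Fintype.card F = 2 ^ m → ∀ (A P E Et s B wb w₁ w₂ : F[X]) (N d : ℕ),
    P.Monic → Irreducible P → E.Monic → Et ≠ 0 → E ∣ Et → s.Monic → A + wb ^ 4 = s * B →
    s ∣ Et ^ N → IsCoprime B Et → derivative A = (P * E) ^ 2 → P ^ 4 ∣ A + P ^ 2 + P ^ 3 →
    IsCoprime P Et → (hasseDeriv 2 A).natDegree + 1 < (derivative A).natDegree →
    w₁.Monic → w₂.Monic → w₁.natDegree = d → w₂.natDegree = d → A.natDegree < 4 * d →
    Et ^ (2 * N + 2) ∣ w₁ - wb → Et ^ (2 * N + 2) ∣ w₂ - wb → ¬ P ∣ w₁ → ¬ P ∣ w₂ →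
    (bt m (∑ b ∈ rs P, 1 / (aeval b w₁) ^ 4) = bt m (∑ b ∈ rs P, 1 / (aeval b w₂) ^ 4) →
      helper36.FF.lam (A + w₁ ^ 4) = helper36.FF.lam (A + w₂ ^ 4)) ∧
    (bt m (∑ b ∈ rs P, 1 / (aeval b w₁) ^ 4) ≠ bt m (∑ b ∈ rs P, 1 / (aeval b w₂) ^ 4) →
      helper36.FF.lam (A + w₁ ^ 4) = -helper36.FF.lam (A + w₂ ^ 4))

/-- TRS (medium). From BT0, RTS. `α` a root of `P`, `d = natDegree P`, `q = 2^m`, `M = m d ≥ 2` (`m ≥ 1` as `F` is a field). `k = {y ∈ K : y^(q^d) = y}` has `q^d` elements, and they are the `aeval α x`, `x ∈ F[X]` (`F[α]` has `q^d` elements; `root_pow_natDegree`-like: `(aeval α x)^(q^d) = aeval (α^(q^d)) x`). `bt M` is a polynomial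
function of degree `2^(M-1) < 2^M = q^d`, so some `y ∈ k` has `bt M y ≠ 0`, hence `1` (BT0 part 4); and some `y ≠ 0` in `k` has `bt M y = 0` (`bt M` is additive; if `y₁ ≠ y₂` have the same value take `y₁ + y₂`; `2^M ≥ 4 > 2`). Take `y` with `bt M y = c`, `y ≠ 0`, and `x` with `aeval α x = 1/y`. If `P ∣ w - x` then `aeval α w = 1/y ≠ 0`, and
`∑ (b ∈ rs P) 1/w(b)^4 = ∑ (i < d) (y^4)^(q^i)` (`aroots_irr`; `w(α^(q^i)) = w(α)^(q^i)`), `bt m` of it is `∑ (i < d) ∑ (j < m) (y^4)^(2^(m i + j)) = bt M (y^4) = bt M y` (BT0 part 5 twice). -/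
def TRS_stmt (F : Type*) [Field F] [Fintype F] [CharP F 2] : Prop :=
  ∀ m : ℕ, Fintype.card F = 2 ^ m → ∀ P : F[X], P.Monic → Irreducible P → 2 ≤ P.natDegree →
    ∀ c : AlgebraicClosure F, (c = 0 ∨ c = 1) → ∃ x : F[X], ∀ w : F[X], P ∣ w - x →
      ¬ P ∣ w ∧ bt m (∑ b ∈ rs P, 1 / (aeval b w) ^ 4) = c

/-- AVO (short). As `avoid_residue` in `Pool/Agent/helper36/FF/K.lean` (`j = 0`, `y^4` instead of `y^p`; `y ↦ y^4` is injective on a field of characteristic 2). -/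
def AVO_stmt (F : Type*) [Field F] [Fintype F] [CharP F 2] : Prop :=
  ∀ π : F[X], Irreducible π → ∀ (G : Finset F[X]) (f : F[X]),
    G.card < Fintype.card F ^ π.natDegree → ∃ y : F[X], ∀ g ∈ G, ¬ π ∣ f + g + y ^ 4

/-- HDG (short). Coefficients: `hasseDeriv_coeff`: the coefficient of `X^k` of `hasseDeriv 2 A` is `C(k+2,2) A_(k+2)`; for `k + 2 = N` (`N = 1` modulo 4) and `k + 2 = N - 1` the binomial is even. So `natDegree (hasseDeriv 2 A) ≤ N - 4`. `A'` has the leading term `N X^(N-1) = X^(N-1)`. -/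
def HDG_stmt (F : Type*) [Field F] [CharP F 2] : Prop :=
  ∀ A : F[X], A.Monic → A.natDegree % 4 = 1 → 5 ≤ A.natDegree →
    (derivative A).Monic ∧ (hasseDeriv 2 A).natDegree + 1 < (derivative A).natDegree

/-- FZX (medium; see `main_large_j` in `Pool/Agent/helper36/FF/K.lean`). From HDG. `D` larger than all `natDegree g`, `natDegree g'`, `natDegree M`, `2`; `exists_primes G D`. `x` modulo `P g ^ 4` is `g + P g ^ 2 + P g ^ 3` (`crt_finset`), modulo `M` it is `a` (`crt_pair`); `monic_family` gives a monic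
representative of a large degree `N`, `N % 4 = 1`, `N > natDegree g` for all `g`. `x + g` is monic of degree `N`: HDG. `(x+g)' = S^2` (`exists_pth_root 2`, its derivative is `0` in characteristic 2). `x + g = P^2 + P^3 + P^4 Z`, so `(x+g)' = P^2 P' + P^4 Z'`: `P ∣ S`, `S = P E`, `E^2 = P' + P^2 Z'`, `P ∤ P'` (separable), so
`P ∤ E`. `E` is monic (`(P E)^2` is, and `c^2 = 1` gives `c = 1`). For `g ≠ g'`: `P g ∣ E g'` would give `P g ∣ (x+g)' - (x+g')' = g' - g''`, nonzero of degree `< D`. -/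
def FZX_stmt (F : Type*) [Field F] [Fintype F] [CharP F 2] : Prop :=
  ∀ (G : Finset F[X]) (M a : F[X]), M ≠ 0 →
    (∀ g ∈ G, ∀ g' ∈ G, g ≠ g' → derivative g ≠ derivative g') →
    ∃ (P E : F[X] → F[X]) (x : F[X]), M ∣ x - a ∧ ∀ g ∈ G,
      (P g).Monic ∧ Irreducible (P g) ∧ 2 ≤ (P g).natDegree ∧ IsCoprime (P g) M ∧
      (∀ g' ∈ G, g ≠ g' → IsCoprime (P g) (P g')) ∧ (E g).Monic ∧
      derivative (x + g) = (P g * E g) ^ 2 ∧ P g ^ 4 ∣ (x + g) + P g ^ 2 + P g ^ 3 ∧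
      (hasseDeriv 2 (x + g)).natDegree + 1 < (derivative (x + g)).natDegree ∧
      ∀ g' ∈ G, IsCoprime (P g) (E g')

/-- BAS (short-medium; the middle part of `main_large_j`, `Pool/Agent/helper36/FF/K.lean`). From AVO. `L` = the monic irreducible divisors `π` of `Ep` (`finite_factors`) with `G.card < natDegree π`, `¬ π ∣ M`; `yy π` from AVO (`Nat.lt_pow_self`); `wb = yy π` modulo every `π ∈ L`, `wb = 0` modulo `M` (`crt_finset`, `crt_pair`),
`natDegree wb` larger than that of `x + g` (`exists_avoid`). -/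
def BAS_stmt (F : Type*) [Field F] [Fintype F] [CharP F 2] : Prop :=
  ∀ (G : Finset F[X]) (M x Ep : F[X]), M ≠ 0 → Ep ≠ 0 → ∃ wb : F[X], M ∣ wb ∧
    (∀ g ∈ G, x + g + wb ^ 4 ≠ 0) ∧ ∀ π : F[X], Irreducible π → G.card < π.natDegree →
      ¬ π ∣ M → π ∣ Ep → ∀ g ∈ G, ¬ π ∣ x + g + wb ^ 4

/-- MN2 (medium-long; the last part of `main_large_j`, `Pool/Agent/helper36/FF/K.lean`). From FZX, BAS, TRS, CSH. `Et = M * ∏ (g ∈ G) E g`; BAS with `Ep = ∏ E g`; `exists_part Et (x + g + wb^4)`: `s g`, `B g`, `N g`; `N0 = ∑ N g`; `T0 = Et^(2 N0 + 2)`, `T = T0 * ∏ P g`. TRS gives `y g c` (`c = 0, 1`) modulo `P g`. For `d ≥ c`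
(`natDegree T ≤ d`, `natDegree x < 4 d`, `natDegree (x + g) < 4 d`): a monic `w₁` of degree `d`, `w₁ = wb` modulo `T0`, `w₁ = y g 0` modulo `P g`; `c g = 0` if `lam (x + g + w₁^4) = σ g`, else `1`; `monic_family T x₂ d` with `x₂ = wb` modulo `T0`, `x₂ = y g (c g)` modulo `P g`; `S` = the `x + w^4`. CSH gives `lam (x + g + w^4) = σ g`.
`w ↦ x + w^4` is injective. `M ∣ x + w^4 - a`. Squares: `π^2 ∣ f + g` gives `π ∣ (f + g)' = (x + g)' = (P g E g)^2`; if `π ∣ P g` then `P g ∣ f + g`, `P g ∣ x + g`, `P g ∣ w`, no; if `π ∣ E g` then BAS and `π ∣ Et ∣ w - wb`, `π ∣ f + g = x + g + wb^4 + (w + wb)^4`, no. -/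
def MN2_stmt (F : Type*) [Field F] [Fintype F] [CharP F 2] : Prop :=
  ∀ (G : Finset F[X]) (σ : F[X] → ℤ), (∀ g ∈ G, σ g = 1 ∨ σ g = -1) → ∀ M a : F[X], M ≠ 0 →
    (∀ g ∈ G, ∀ g' ∈ G, g ≠ g' → derivative g ≠ derivative g') →
    ∃ c : ℕ, ∀ d : ℕ, c ≤ d → ∃ S : Finset F[X], Fintype.card F ^ (d - c) ≤ S.card ∧
      ∀ f ∈ S, f.Monic ∧ f.natDegree = 4 * d ∧ M ∣ f - a ∧
        (∀ g ∈ G, helper36.FF.lam (f + g) = σ g) ∧
        ∀ π : F[X], Irreducible π → G.card < π.natDegree → ¬ π ∣ M → ∀ g ∈ G, ¬ π ^ 2 ∣ f + g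

/-- REM (medium). From AVO, MN2. `Q` monic irreducible of degree larger than `G.card`, `1`, `natDegree M`, all `natDegree g` (`exists_irr`). For `i < 4`: `Λ = Q X^i`, `G' = {Λ g : g ∈ G}`, `σ' (Λ g) = lam Λ * σ g`. Different derivatives: if `(Λ (g - g'))' = 0` then `Λ (g - g') = k^2`
(`exists_pth_root 2`), `Q ∣ k`, `Q^2 ∣ Q X^i (g - g')`, `Q ∣ g - g'`, no. `a₁ = a` modulo `M`, `Q ∤ a₁ + g` for all `g ∈ G` (AVO with `f = 0`: `a₁ = y^4` modulo `Q`; `crt_pair`). MN2 with `M' = Λ M Q`, `a' = Λ a₁`, and `4 d = n + natDegree Λ` for the right `i`.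
`F' ∈ S'`: `Λ ∣ F'`, `f = F'/Λ` monic of degree `n`, `f = a₁` modulo `M Q`, `Λ (f + g) = F' + Λ g`, `lam` divides out (`f + g ≠ 0` for large `n`). Squares: `π ∤ M'`: `π^2 ∣ Λ (f + g)`, no; `π ∣ Q`: then `Q ∣ f + g`, `Q ∣ a₁ + g`, no; `π ∣ X`: `natDegree π = 1 ≤ G.card`. `d ≥ n/4`; constants: the maximum over `i`. -/
def REM_stmt (F : Type*) [Field F] [Fintype F] [CharP F 2] : Prop :=
  ∀ (G : Finset F[X]) (σ : F[X] → ℤ), (∀ g ∈ G, σ g = 1 ∨ σ g = -1) → ∀ M a : F[X], M ≠ 0 →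
    ∃ c : ℕ, ∀ n : ℕ, c ≤ n → ∃ S : Finset F[X], Fintype.card F ^ (n / 4 - c) ≤ S.card ∧
      ∀ f ∈ S, f.Monic ∧ f.natDegree = n ∧ M ∣ f - a ∧
        (∀ g ∈ G, helper36.FF.lam (f + g) = σ g) ∧
        ∀ π : F[X], Irreducible π → G.card < π.natDegree → ¬ π ∣ M → ∀ g ∈ G, ¬ π ^ 2 ∣ f + g

/-- MSQ (short; copy of `main_sq` in `Pool/Agent/helper36/FF/L.lean`, REM instead of `main_large_j`, without the case distinction over `j`). -/
def MSQ_stmt (F : Type*) [Field F] [Fintype F] [CharP F 2] : Prop :=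
  ∀ (G : Finset F[X]) (σ : F[X] → ℤ), (∀ g ∈ G, σ g = 1 ∨ σ g = -1) → ∀ M a : F[X], M ≠ 0 →
    ∃ c : ℕ, ∀ n : ℕ, c ≤ n → ∃ S : Finset F[X], Fintype.card F ^ (n / 4 - c) ≤ S.card ∧
      ∀ f ∈ S, f.Monic ∧ f.natDegree = n ∧ M ∣ f - a ∧
        (∀ g ∈ G, helper36.FF.lam (f + g) = σ g) ∧
        ∀ π : F[X], Irreducible π → ¬ π ∣ M → (∃ x : F[X], ∀ g ∈ G, ¬ π ^ 2 ∣ x + g) →
          ∀ g ∈ G, ¬ π ^ 2 ∣ f + g

/-- LIN (short; copy of `linear_forms` in `Pool/Agent/helper36/FF/L.lean`, MSQ instead of `main_sq`, `n / 4` instead of `n / ringChar F`). -/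
def LIN_stmt (F : Type*) [Field F] [Fintype F] [CharP F 2] : Prop :=
  ∀ (k : ℕ) (A B : Fin k → F[X]), (∀ i, A i ≠ 0) →
    (∀ i j, i ≠ j → A i * B j ≠ A j * B i) → ∀ σ : Fin k → ℤ, (∀ i, σ i = 1 ∨ σ i = -1) →
    ∃ c : ℕ, ∀ n : ℕ, c ≤ n → ∃ S : Finset F[X], Fintype.card F ^ (n / 4 - c) ≤ S.card ∧
      ∀ f ∈ S, f.Monic ∧ f.natDegree = n ∧ (∀ i, helper36.FF.lam (A i * f + B i) = σ i) ∧
        ∀ π : F[X], Irreducible π → (∃ x : F[X], ∀ i, ¬ π ^ 2 ∣ A i * x + B i) →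
          ∀ i, ¬ π ^ 2 ∣ A i * f + B i

end Pool.Agent.FF2
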