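import Pool.Agent.helper76.FF2.Spec

set_option autoImplicit false

namespace Pool.Agent.FF2

open Polynomial

theorem BT0_add {K : Type*} [Field K] [CharP K 2] (m : ℕ) (x y : K) :
    bt m (x + y) = bt m x + bt m y := by
  unfold bt
  rw [← Finset.sum_add_distrib]
  exact Finset.sum_congr rfl fun i _ => add_pow_char_pow x y 2 i

theorem BT0_zero {K : Type*} [Field K] [CharP K 2] (m : ℕ) : bt m (0 : K) = 0 := by
  unfold bt
  apply Finset.sum_eq_zero
  intro i _
  rw [zero_pow (by positivity)]

theorem BT0_sq {K : Type*} [Field K] [CharP K 2] (m : ℕ) (x : K) : bt m (x ^ 2) = bt m x ^ 2 := by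
  unfold bt
  rw [CharTwo.sum_sq]
  apply Finset.sum_congr rfl
  intro i _
  rw [← pow_mul, ← pow_mul, mul_comm]

theorem BT0_tele {K : Type*} [Field K] [CharP K 2] (m : ℕ) (y : K) :
    bt m (y ^ 2) + bt m y = y ^ 2 ^ m + y := by
  induction m with
  | zero =>
    unfold bt
    simp only [Finset.range_zero, Finset.sum_empty, pow_zero, pow_one, add_zero]
    rw [CharTwo.add_self_eq_zero]
  | succ m ih =>
    have h1 : bt (m + 1) (y ^ 2) = bt m (y ^ 2) + y ^ 2 ^ (m + 1) := by
      unfold bt
      rw [Finset.sum_range_succ, ← pow_mul, pow_succ 2 m, mul_comm 2 (2 ^ m)]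
    have h2 : bt (m + 1) y = bt m y + y ^ 2 ^ m := by
      unfold bt
      rw [Finset.sum_range_succ]
    rw [h1, h2]
    have h3 : y ^ 2 ^ m + y ^ 2 ^ m = 0 := CharTwo.add_self_eq_zero _
    linear_combination ih + h3

theorem BT0 (K : Type*) [Field K] [CharP K 2] : BT0_stmt K := by
  refine ⟨BT0_add, BT0_zero, ?_, ?_, ?_, ?_⟩
  · intro m y
    rw [BT0_add, BT0_tele]
  · intro m x hx
    have h1 := BT0_tele m x
    rw [hx, BT0_sq, CharTwo.add_self_eq_zero] at h1
    have h2 : bt m x * (bt m x + 1) = 0 := by linear_combination h1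
    rcases mul_eq_zero.1 h2 with h | h
    · exact Or.inl h
    · right
      rw [← CharTwo.neg_eq (1 : K)]
      exact eq_neg_of_add_eq_zero_left h
  · intro m x hx
    have h1 := BT0_tele m x
    rw [hx, CharTwo.add_self_eq_zero] at h1
    rw [eq_neg_of_add_eq_zero_left h1, CharTwo.neg_eq]
  · intro m s f
    classical
    induction s using Finset.induction_on with
    | empty => rw [Finset.sum_empty, Finset.sum_empty, BT0_zero]
    | insert a s ha ih => rw [Finset.sum_insert ha, Finset.sum_insert ha, BT0_add, ih]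

end Pool.Agent.FF2
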