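import Pool.Agent.helper10.FF2.E2B
import Pool.Agent.helper15.FF2.FZX
import Pool.Agent.helper15.FF2.MN2
import Pool.Agent.helper20.FF2.ROT
import Pool.Agent.helper27.FF2.COR
import Pool.Agent.helper27.FF2.PAR
import Pool.Agent.helper27.FF2.REC
import Pool.Agent.helper28.FF2.EUL
import Pool.Agent.helper32.FF2.SGN
import Pool.Agent.helper34.FF2.DSM
import Pool.Agent.helper34.FF2.TRS
import Pool.Agent.helper39.FF2.E2A
import Pool.Agent.helper42.FF2.NUM
import Pool.Agent.helper43.FF2.BIR
import Pool.Agent.helper52.FF2.BAS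
import Pool.Agent.helper53.FF2.CSH
import Pool.Agent.helper57.FF2.CMP
import Pool.Agent.helper58.FF2.PFD
import Pool.Agent.helper58.FF2.RTS
import Pool.Agent.helper66.FF2.MSQ
import Pool.Agent.helper66.FF2.REM
import Pool.Agent.helper68.FF2.PWS
import Pool.Agent.helper68.FF2.ZRT
import Pool.Agent.helper76.FF2.BT0
import Pool.Agent.helper78.FF2.WWW
import Pool.Agent.helper79.FF2.LOC
import Pool.Agent.helper8.FF2.DEC
import Pool.Agent.helper9.FF2.LDV
import Pool.Agent.helper90.FF2.BAD
import Pool.Agent.helper92.FF2.HDG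
import Pool.Agent.helper92.FF2.LIN
import Pool.Agent.helper97.FF2.AVO

set_option autoImplicit false

namespace Pool.Agent.FF2

theorem ALL (F : Type*) [Field F] [Fintype F] [CharP F 2] : LIN_stmt F := by
  have hE := E2A (AlgebraicClosure F)
  have hROT := ROT _ hE
  have hBAD := BAD _ hE
  have hBT := BT0 (AlgebraicClosure F)
  have hRTS := RTS F
  have hBIR := BIR F hE hBT
  have hSGN := SGN F hBAD hBT hRTS hBIR
  have hREC := REC _ hE
  have hPWS := PWS _ hE
  have hLDV := LDV (AlgebraicClosure F)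
  have hE2B := E2B _ hE hPWS hLDV
  have hZRT := ZRT _ hPWS
  have hEUL := EUL (AlgebraicClosure F)
  have hPAR := PAR (AlgebraicClosure F)
  have hDSM := DSM _ hE
  have hDEC := DEC (AlgebraicClosure F)
  have hWWW := WWW _ hZRT hEUL
  have hPFD := PFD _ hWWW
  have hLOC := LOC _ hE hREC hE2B hPAR hDSM hPFD
  have hNUM := NUM (AlgebraicClosure F)
  have hCOR := COR _ hE hROT hZRT hDEC hLOC hNUM
  have hCMP := CMP F hBT hRTS hSGN hCOR
  have hCSH := CSH F hBT hRTS hCMP
  have hTRS := TRS F hBT hRTS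
  have hAVO := AVO F
  have hHDG := HDG F
  have hFZX := FZX F hHDG
  have hBAS := BAS F hAVO
  have hMN2 := MN2 F hFZX hBAS hTRS hCSH
  have hREM := REM F hAVO hMN2
  have hMSQ := MSQ F hREM
  exact LIN F hMSQ

end Pool.Agent.FF2
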